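import Mathlib

/-!
# Words of a self-affine system with integer data
-/

set_option autoImplicit false

namespace Q50.SO

open Matrix

variable {d : ℕ}

/-- The real matrix. -/
noncomputable abbrev RR (R : Matrix (Fin d) (Fin d) ℤ) : Matrix (Fin d) (Fin d) ℝ :=
  R.map (Int.castRingHom ℝ)

/-- The inverse real matrix. -/
noncomputable abbrev LL (R : Matrix (Fin d) (Fin d) ℤ) : Matrix (Fin d) (Fin d) ℝ := (RR R)⁻¹

/-- integer vectors as real vectors -/
def cst (k : Fin d → ℤ) : Fin d → ℝ := fun i => (k i : ℝ)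

@[simp] theorem cst_zero : cst (0 : Fin d → ℤ) = 0 := by ext i; simp [cst]
theorem cst_add (k l : Fin d → ℤ) : cst (k + l) = cst k + cst l := by ext i; simp [cst]
theorem cst_sub (k l : Fin d → ℤ) : cst (k - l) = cst k - cst l := by ext i; simp [cst]
theorem cst_inj {k l : Fin d → ℤ} (h : cst k = cst l) : k = l := by
  ext i
  have := congrFun h i
  simpa [cst] using this

theorem cst_mulVec (M : Matrix (Fin d) (Fin d) ℤ) (k : Fin d → ℤ) :
    cst (M *ᵥ k) = (M.map (Int.castRingHom ℝ)) *ᵥ cst k := by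
  ext i
  simp [cst, Matrix.mulVec, dotProduct]

theorem map_pow' (R : Matrix (Fin d) (Fin d) ℤ) (n : ℕ) :
    (R ^ n).map (Int.castRingHom ℝ) = (RR R) ^ n := Matrix.map_pow _ _ _

section inv
variable {R : Matrix (Fin d) (Fin d) ℤ} (hR : (RR R).det ≠ 0)
include hR

theorem LR_pow (n : ℕ) : (LL R) ^ n * (RR R) ^ n = 1 := by
  rw [Matrix.inv_pow']
  exact Matrix.nonsing_inv_mul _ (by rw [Matrix.det_pow]; exact (isUnit_iff_ne_zero.2 hR).pow n)

theorem RL_pow (n : ℕ) : (RR R) ^ n * (LL R) ^ n = 1 := by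
  rw [Matrix.inv_pow']
  exact Matrix.mul_nonsing_inv _ (by rw [Matrix.det_pow]; exact (isUnit_iff_ne_zero.2 hR).pow n)

theorem LR_vec (n : ℕ) (x : Fin d → ℝ) : (LL R) ^ n *ᵥ ((RR R) ^ n *ᵥ x) = x := by
  rw [Matrix.mulVec_mulVec, LR_pow hR, Matrix.one_mulVec]

theorem RL_vec (n : ℕ) (x : Fin d → ℝ) : (RR R) ^ n *ᵥ ((LL R) ^ n *ᵥ x) = x := by
  rw [Matrix.mulVec_mulVec, RL_pow hR, Matrix.one_mulVec]

end inv

/-- The integer translation of a word. -/
def sv (R : Matrix (Fin d) (Fin d) ℤ) : List (Fin d → ℤ) → (Fin d → ℤ)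
  | [] => 0
  | b :: w => sv R w + (R ^ w.length) *ᵥ b

/-- The affine map of a word. -/
noncomputable def tau (R : Matrix (Fin d) (Fin d) ℤ) (w : List (Fin d → ℤ)) (x : Fin d → ℝ) :
    Fin d → ℝ := (LL R) ^ w.length *ᵥ (x + cst (sv R w))

/-- The inverse of the affine map of a word. -/
noncomputable def sig (R : Matrix (Fin d) (Fin d) ℤ) (w : List (Fin d → ℤ)) (x : Fin d → ℝ) :
    Fin d → ℝ := (RR R) ^ w.length *ᵥ x - cst (sv R w)

theorem tau_nil (R : Matrix (Fin d) (Fin d) ℤ) (x : Fin d → ℝ) : tau R [] x = x := by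
  simp [tau, sv]

theorem tau_single (R : Matrix (Fin d) (Fin d) ℤ) (b : Fin d → ℤ) (x : Fin d → ℝ) :
    tau R [b] x = (LL R) *ᵥ (x + cst b) := by
  simp [tau, sv]

theorem sv_append (R : Matrix (Fin d) (Fin d) ℤ) (v w : List (Fin d → ℤ)) :
    sv R (v ++ w) = sv R w + (R ^ w.length) *ᵥ sv R v := by
  induction v with
  | nil => simp [sv]
  | cons b v ih =>
    simp only [List.cons_append, sv, ih, List.length_append, Matrix.mulVec_add,
      Matrix.mulVec_mulVec, ← pow_add]
    rw [add_comm v.length, add_assoc]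

section inv
variable {R : Matrix (Fin d) (Fin d) ℤ} (hR : (RR R).det ≠ 0)
include hR

theorem tau_append (v w : List (Fin d → ℤ)) (x : Fin d → ℝ) :
    tau R (v ++ w) x = tau R v (tau R w x) := by
  unfold tau
  rw [sv_append, List.length_append, cst_add, cst_mulVec, map_pow', pow_add,
    ← Matrix.mulVec_mulVec, Matrix.mulVec_add, Matrix.mulVec_add, Matrix.mulVec_add,
    LR_vec hR, Matrix.mulVec_add, Matrix.mulVec_add]
  simp only [Matrix.mulVec_add]
  abel

theorem sig_tau (w : List (Fin d → ℤ)) (x : Fin d → ℝ) : sig R w (tau R w x) = x := by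
  unfold sig tau
  rw [RL_vec hR]; simp

theorem tau_sig (w : List (Fin d → ℤ)) (x : Fin d → ℝ) : tau R w (sig R w x) = x := by
  unfold sig tau
  rw [sub_add_cancel, LR_vec hR]

end inv

theorem continuous_tau (R : Matrix (Fin d) (Fin d) ℤ) (w : List (Fin d → ℤ)) :
    Continuous (tau R w) := by
  unfold tau
  exact Continuous.matrix_mulVec continuous_const (continuous_id.add continuous_const)

theorem continuous_sig (R : Matrix (Fin d) (Fin d) ℤ) (w : List (Fin d → ℤ)) :
    Continuous (sig R w) := by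
  unfold sig
  exact (Continuous.matrix_mulVec continuous_const continuous_id).sub continuous_const

/-- Words of length `n` over `B`. -/
def W (B : Finset (Fin d → ℤ)) : ℕ → Finset (List (Fin d → ℤ))
  | 0 => {[]}
  | n + 1 => (B ×ˢ W B n).image (fun p => p.1 :: p.2)

theorem mem_W {B : Finset (Fin d → ℤ)} {n : ℕ} {w : List (Fin d → ℤ)} :
    w ∈ W B n ↔ w.length = n ∧ ∀ b ∈ w, b ∈ B := by
  induction n generalizing w with
  | zero =>
    simp only [W, Finset.mem_singleton]
    constructor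
    · rintro rfl; simp
    · rintro ⟨h, -⟩; exact List.length_eq_zero_iff.1 h
  | succ n ih =>
    simp only [W, Finset.mem_image, Finset.mem_product, Prod.exists]
    constructor
    · rintro ⟨b, v, ⟨hb, hv⟩, rfl⟩
      obtain ⟨h1, h2⟩ := ih.1 hv
      refine ⟨by simp [h1], ?_⟩
      intro c hc
      rcases List.mem_cons.1 hc with rfl | hc
      · exact hb
      · exact h2 c hc
    · rintro ⟨h1, h2⟩
      cases w with
      | nil => simp at h1
      | cons b v =>
        refine ⟨b, v, ⟨h2 b (by simp), ih.2 ⟨by simpa using h1, fun c hc => h2 c (by simp [hc])⟩⟩,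
          rfl⟩

theorem length_of_mem {B : Finset (Fin d → ℤ)} {n : ℕ} {w : List (Fin d → ℤ)} (h : w ∈ W B n) :
    w.length = n := (mem_W.1 h).1

theorem append_mem {B : Finset (Fin d → ℤ)} {m n : ℕ} {v w : List (Fin d → ℤ)} (hv : v ∈ W B m)
    (hw : w ∈ W B n) : v ++ w ∈ W B (m + n) := by
  rw [mem_W] at *
  refine ⟨by simp [hv.1, hw.1], ?_⟩
  intro b hb
  rcases List.mem_append.1 hb with h | h
  · exact hv.2 b h
  · exact hw.2 b h

theorem single_mem {B : Finset (Fin d → ℤ)} {b : Fin d → ℤ} (hb : b ∈ B) : [b] ∈ W B 1 := by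
  rw [mem_W]; simp [hb]

theorem nil_mem {B : Finset (Fin d → ℤ)} : ([] : List (Fin d → ℤ)) ∈ W B 0 := by
  simp [W]

theorem sum_W_succ {B : Finset (Fin d → ℤ)} {M : Type*} [AddCommMonoid M] (n : ℕ)
    (f : List (Fin d → ℤ) → M) :
    ∑ w ∈ W B (n + 1), f w = ∑ b ∈ B, ∑ w ∈ W B n, f (b :: w) := by
  have : W B (n + 1) = (B ×ˢ W B n).image (fun p => p.1 :: p.2) := rfl
  rw [this, Finset.sum_image, Finset.sum_product]
  rintro ⟨b, w⟩ - ⟨c, v⟩ - h
  simpa using h

theorem card_W {B : Finset (Fin d → ℤ)} (n : ℕ) : (W B n).card = B.card ^ n := by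
  induction n with
  | zero => simp [W]
  | succ n ih =>
    rw [Finset.card_eq_sum_ones, sum_W_succ, Finset.sum_const, Finset.sum_const, ih]
    simp [pow_succ, mul_comm]

section att
variable {R : Matrix (Fin d) (Fin d) ℤ} (hR : (RR R).det ≠ 0) {B : Finset (Fin d → ℤ)}
  {T : Set (Fin d → ℝ)} (hT : T = ⋃ b ∈ B, tau R [b] '' T)
include hR hT

theorem tau_maps {n : ℕ} {w : List (Fin d → ℤ)} (hw : w ∈ W B n) {x : Fin d → ℝ} (hx : x ∈ T) :
    tau R w x ∈ T := by
  induction w generalizing n with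
  | nil => rwa [tau_nil]
  | cons b w ih =>
    obtain ⟨h1, h2⟩ := mem_W.1 hw
    have h3 := ih (n := w.length) (mem_W.2 ⟨rfl, fun c hc => h2 c (by simp [hc])⟩)
    have h4 : tau R (b :: w) x = tau R [b] (tau R w x) := by
      rw [← tau_append hR]; rfl
    rw [h4, hT]
    exact Set.mem_biUnion (h2 b (by simp)) (Set.mem_image_of_mem _ h3)

theorem exists_tau (n : ℕ) {x : Fin d → ℝ} (hx : x ∈ T) :
    ∃ w ∈ W B n, ∃ y ∈ T, tau R w y = x := by
  induction n generalizing x with
  | zero => exact ⟨[], nil_mem, x, hx, tau_nil _ _⟩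
  | succ n ih =>
    rw [hT] at hx
    simp only [Set.mem_iUnion, Set.mem_image] at hx
    obtain ⟨b, hb, y, hy, rfl⟩ := hx
    obtain ⟨w, hw, z, hz, rfl⟩ := ih hy
    refine ⟨[b] ++ w, by rw [add_comm]; exact append_mem (single_mem hb) hw, z, hz, ?_⟩
    rw [tau_append hR]

end att

end Q50.SO
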