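import Mathlib
import Pool.Agent.Q50.SO.Words

/-!
# Self-affine measures: cells, support, density
-/

set_option autoImplicit false

namespace Q50.SO

open Matrix MeasureTheory Filter Topology
open scoped ENNReal

variable {d : ℕ}

/-- The standing assumptions. -/
structure Sys (R : Matrix (Fin d) (Fin d) ℤ) (B : Finset (Fin d → ℤ))
    (μ : Measure (Fin d → ℝ)) (T : Set (Fin d → ℝ)) (r : ℕ → ℝ) : Prop where
  det : (RR R).det ≠ 0
  prob : IsProbabilityMeasure μ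
  self : ∀ E : Set (Fin d → ℝ), MeasurableSet E →
    μ E = (B.card : ℝ≥0∞)⁻¹ * ∑ b ∈ B, μ (tau R [b] ⁻¹' E)
  cpt : IsCompact T
  ne : T.Nonempty
  att : T = ⋃ b ∈ B, tau R [b] '' T
  r_lim : Tendsto r atTop (𝓝 0)
  r_nonneg : ∀ n, 0 ≤ r n
  r_le : ∀ n, ∀ x : Fin d → ℝ, ‖((LL R) ^ n) *ᵥ x‖ ≤ r n * ‖x‖

section
variable {R : Matrix (Fin d) (Fin d) ℤ} {B : Finset (Fin d → ℤ)}
    {μ : Measure (Fin d → ℝ)} {T : Set (Fin d → ℝ)} {r : ℕ → ℝ}

theorem measurable_tau (w : List (Fin d → ℤ)) : Measurable (tau R w) :=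
  (continuous_tau R w).measurable

theorem measurable_sig (w : List (Fin d → ℤ)) : Measurable (sig R w) :=
  (continuous_sig R w).measurable

namespace Sys
variable (S : Sys R B μ T r)
include S

theorem nonempty_B : B.Nonempty := by
  obtain ⟨x, hx⟩ := S.ne
  rw [S.att] at hx
  simp only [Set.mem_iUnion] at hx
  obtain ⟨b, hb, -⟩ := hx
  exact ⟨b, hb⟩

theorem card_pos : (B.card : ℝ≥0∞) ≠ 0 := by
  have := S.nonempty_B.card_pos
  exact_mod_cast this.ne'

theorem c_mul (n : ℕ) : ((B.card : ℝ≥0∞)⁻¹) ^ n * ((W B n).card : ℝ≥0∞) = 1 := by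
  rw [card_W]
  push_cast
  rw [← mul_pow, ENNReal.inv_mul_cancel S.card_pos (ENNReal.natCast_ne_top _), one_pow]

theorem c_ne_zero (n : ℕ) : ((B.card : ℝ≥0∞)⁻¹) ^ n ≠ 0 :=
  pow_ne_zero _ (ENNReal.inv_ne_zero.2 (ENNReal.natCast_ne_top _))

theorem c_ne_top (n : ℕ) : ((B.card : ℝ≥0∞)⁻¹) ^ n ≠ ∞ :=
  ENNReal.pow_ne_top (ENNReal.inv_ne_top.2 S.card_pos)

theorem level (n : ℕ) (E : Set (Fin d → ℝ)) (hE : MeasurableSet E) :
    μ E = ((B.card : ℝ≥0∞)⁻¹) ^ n * ∑ w ∈ W B n, μ (tau R w ⁻¹' E) := by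
  induction n generalizing E with
  | zero =>
    have : tau R [] ⁻¹' E = E := by
      ext x; simp [tau_nil]
    simp [W, this]
  | succ n ih =>
    rw [sum_W_succ, S.self E hE, pow_succ', mul_assoc]
    congr 1
    rw [Finset.mul_sum]
    refine Finset.sum_congr rfl fun b _ => ?_
    rw [ih _ (measurable_tau _ hE)]
    congr 1
    refine Finset.sum_congr rfl fun w _ => ?_
    congr 1
    ext x
    simp only [Set.mem_preimage]
    rw [← tau_append S.det]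
    rfl

theorem dist_tau (w : List (Fin d → ℤ)) (x y : Fin d → ℝ) :
    ‖tau R w x - tau R w y‖ ≤ r w.length * ‖x - y‖ := by
  have : tau R w x - tau R w y = (LL R) ^ w.length *ᵥ (x - y) := by
    unfold tau
    rw [← Matrix.mulVec_sub]
    congr 1
    abel
  rw [this]
  exact S.r_le _ _

theorem exists_small (D : ℝ) {δ : ℝ} (hδ : 0 < δ) (N : ℕ) : ∃ n ≥ N, r n * D < δ := by
  have h1 : Tendsto (fun n => r n * D) atTop (𝓝 (0 * D)) := S.r_lim.mul_const D
  rw [zero_mul] at h1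
  obtain ⟨n, hn1, hn2⟩ := ((h1.eventually (gt_mem_nhds hδ)).and (eventually_ge_atTop N)).exists
  exact ⟨n, hn2, hn1⟩

/-- cells of a bounded set are close to `T` -/
theorem compl_thickening {δ : ℝ} (hδ : 0 < δ) : μ (Metric.thickening δ T)ᶜ = 0 := by
  have := S.prob
  by_contra hne
  obtain ⟨K, -, hK, hKμ⟩ := MeasurableSet.univ.exists_isCompact_sdiff_lt (μ := μ)
    (measure_ne_top _ _) hne
  obtain ⟨D, hD⟩ := (hK.union S.cpt).isBounded.exists_norm_le
  obtain ⟨n, -, hn⟩ := S.exists_small (2 * D) hδ 0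
  obtain ⟨t, ht⟩ := S.ne
  have hsub : ∀ w ∈ W B n, tau R w ⁻¹' (Metric.thickening δ T)ᶜ ⊆ Set.univ \ K := by
    intro w hw x hx
    refine ⟨Set.mem_univ _, fun hxK => hx ?_⟩
    rw [Metric.mem_thickening_iff]
    refine ⟨tau R w t, tau_maps S.det S.att hw ht, ?_⟩
    rw [dist_eq_norm]
    refine lt_of_le_of_lt (S.dist_tau w x t) ?_
    rw [length_of_mem hw]
    refine lt_of_le_of_lt ?_ hn
    refine mul_le_mul_of_nonneg_left ?_ (S.r_nonneg n)
    calc ‖x - t‖ ≤ ‖x‖ + ‖t‖ := norm_sub_le _ _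
      _ ≤ D + D := add_le_add (hD x (Or.inl hxK)) (hD t (Or.inr ht))
      _ = 2 * D := by ring
  have h1 := S.level n (Metric.thickening δ T)ᶜ (Metric.isOpen_thickening.measurableSet.compl)
  have h2 : ∑ w ∈ W B n, μ (tau R w ⁻¹' (Metric.thickening δ T)ᶜ) ≤
      ∑ w ∈ W B n, μ (Set.univ \ K) := Finset.sum_le_sum fun w hw => measure_mono (hsub w hw)
  have h3 : μ (Metric.thickening δ T)ᶜ ≤ μ (Set.univ \ K) := by
    calc μ (Metric.thickening δ T)ᶜ
        ≤ ((B.card : ℝ≥0∞)⁻¹) ^ n * ∑ w ∈ W B n, μ (Set.univ \ K) := by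
          rw [h1]; exact mul_le_mul_right h2 _
      _ = μ (Set.univ \ K) := by
          rw [Finset.sum_const, nsmul_eq_mul, ← mul_assoc, S.c_mul, one_mul]
  exact absurd hKμ (not_lt.2 h3)

theorem compl_T : μ Tᶜ = 0 := by
  have h1 : Tᶜ ⊆ ⋃ m : ℕ, (Metric.thickening (1 / ((m : ℝ) + 1)) T)ᶜ := by
    intro x hx
    have h2 : 0 < Metric.infDist x T :=
      (S.cpt.isClosed.notMem_iff_infDist_pos S.ne).1 hx
    obtain ⟨m, hm⟩ := exists_nat_one_div_lt h2
    rw [Set.mem_iUnion]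
    refine ⟨m, ?_⟩
    intro hx2
    rw [Metric.thickening, Set.mem_ofPred_eq] at hx2
    have h4 : Metric.infDist x T < 1 / ((m : ℝ) + 1) := by
      rw [Metric.infDist]
      have h5 : (0 : ℝ) < 1 / ((m : ℝ) + 1) := by positivity
      exact (ENNReal.lt_ofReal_iff_toReal_lt (Metric.infEDist_ne_top S.ne)).1 hx2
    linarith
  refine measure_mono_null h1 (measure_iUnion_null fun m => S.compl_thickening (by positivity))

theorem measure_T : μ T = 1 := by
  have := S.prob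
  exact (prob_compl_eq_zero_iff S.cpt.isClosed.measurableSet).1 S.compl_T

theorem measure_eq_one_of_subset {E : Set (Fin d → ℝ)} (h : T ⊆ E) : μ E = 1 := by
  have := S.prob
  exact le_antisymm prob_le_one (by rw [← S.measure_T]; exact measure_mono h)

/-- small cells around a point of `T` -/
theorem exists_cell {x : Fin d → ℝ} (hx : x ∈ T) {U : Set (Fin d → ℝ)} (hU : IsOpen U)
    (hxU : x ∈ U) : ∃ n, ∃ w ∈ W B n, tau R w '' T ⊆ U := by
  obtain ⟨δ, hδ, hball⟩ := Metric.isOpen_iff.1 hU x hxU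
  obtain ⟨D, hD⟩ := S.cpt.isBounded.exists_norm_le
  obtain ⟨n, -, hn⟩ := S.exists_small (2 * D) hδ 0
  obtain ⟨w, hw, y, hy, rfl⟩ := exists_tau S.det S.att n hx
  refine ⟨n, w, hw, ?_⟩
  rintro _ ⟨z, hz, rfl⟩
  apply hball
  rw [Metric.mem_ball, dist_eq_norm]
  refine lt_of_le_of_lt (S.dist_tau w z y) ?_
  rw [length_of_mem hw]
  refine lt_of_le_of_lt ?_ hn
  refine mul_le_mul_of_nonneg_left ?_ (S.r_nonneg n)
  calc ‖z - y‖ ≤ ‖z‖ + ‖y‖ := norm_sub_le _ _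
    _ ≤ D + D := add_le_add (hD z hz) (hD y hy)
    _ = 2 * D := by ring

theorem pos_of_open {x : Fin d → ℝ} (hx : x ∈ T) {U : Set (Fin d → ℝ)} (hU : IsOpen U)
    (hxU : x ∈ U) : μ U ≠ 0 := by
  obtain ⟨n, w, hw, hsub⟩ := S.exists_cell hx hU hxU
  rw [S.level n U hU.measurableSet]
  have h1 : μ (tau R w ⁻¹' U) = 1 :=
    S.measure_eq_one_of_subset (fun y hy => hsub ⟨y, hy, rfl⟩)
  refine mul_ne_zero (S.c_ne_zero n) ?_
  intro h0
  rw [Finset.sum_eq_zero_iff] at h0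
  have := h0 w hw
  rw [h1] at this
  exact one_ne_zero this

theorem subset_of_closed {C : Set (Fin d → ℝ)} (hC : IsClosed C) (h : μ C = 1) : T ⊆ C := by
  have := S.prob
  intro x hx
  by_contra hxC
  exact S.pos_of_open hx hC.isOpen_compl hxC ((prob_compl_eq_zero_iff hC.measurableSet).2 h)

/-- The cell density lemma. -/
theorem exists_dense_cell {A : Set (Fin d → ℝ)} (hA : MeasurableSet A) (hA0 : μ A ≠ 0)
    {q : ℝ} (hq : q < 1) (N : ℕ) :
    ∃ n ≥ N, ∃ w ∈ W B n, q < (μ (tau R w ⁻¹' A)).toReal := by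
  have := S.prob
  by_cases hq0 : q < 0
  · obtain ⟨b, hb⟩ := S.nonempty_B
    refine ⟨N, le_rfl, List.replicate N b, ?_, lt_of_lt_of_le hq0 ENNReal.toReal_nonneg⟩
    rw [mem_W]
    refine ⟨by simp, fun c hc => ?_⟩
    rw [List.eq_of_mem_replicate hc]; exact hb
  push Not at hq0
  obtain ⟨K, hKA, hK, hK0⟩ := hA.exists_lt_isCompact_of_ne_top (μ := μ) (measure_ne_top _ _)
    (pos_iff_ne_zero.2 hA0)
  set κ : ℝ := (μ K).toReal with hκ
  have hκ0 : 0 < κ := ENNReal.toReal_pos hK0.ne' (measure_ne_top _ _)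
  have hη : ENNReal.ofReal ((1 - q) * κ) ≠ 0 := by
    rw [Ne, ENNReal.ofReal_eq_zero, not_le]
    exact mul_pos (by linarith) hκ0
  obtain ⟨U, hKU, hU, hUμ⟩ := K.exists_isOpen_lt_add (μ := μ) (measure_ne_top _ _) hη
  obtain ⟨δ, hδ, hδU⟩ := hK.exists_thickening_subset_open hU hKU
  obtain ⟨D, hD⟩ := S.cpt.isBounded.exists_norm_le
  obtain ⟨n, hnN, hn⟩ := S.exists_small (2 * D) hδ N
  refine ⟨n, hnN, ?_⟩
  by_contra hcon
  push Not at hcon
  classical
  set V := (W B n).filter (fun w => (tau R w ⁻¹' K ∩ T).Nonempty) with hV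
  -- measures outside V vanish
  have h1 : ∀ w ∈ W B n, w ∉ V → μ (tau R w ⁻¹' K) = 0 := by
    intro w hw hwV
    have : ¬ (tau R w ⁻¹' K ∩ T).Nonempty := fun h => hwV (Finset.mem_filter.2 ⟨hw, h⟩)
    rw [Set.not_nonempty_iff_eq_empty] at this
    refine measure_mono_null ?_ S.compl_T
    intro x hx hxT
    have : x ∈ tau R w ⁻¹' K ∩ T := ⟨hx, hxT⟩
    simp_all
  have h2 : ∀ w ∈ V, μ (tau R w ⁻¹' U) = 1 := by
    intro w hw
    obtain ⟨hw1, x, hxK, hxT⟩ := Finset.mem_filter.1 hw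
    refine S.measure_eq_one_of_subset fun y hy => ?_
    apply hδU
    rw [Metric.mem_thickening_iff]
    refine ⟨tau R w x, hxK, ?_⟩
    rw [dist_eq_norm]
    refine lt_of_le_of_lt (S.dist_tau w y x) ?_
    rw [length_of_mem hw1]
    refine lt_of_le_of_lt ?_ hn
    refine mul_le_mul_of_nonneg_left ?_ (S.r_nonneg n)
    calc ‖y - x‖ ≤ ‖y‖ + ‖x‖ := norm_sub_le _ _
      _ ≤ D + D := add_le_add (hD y hy) (hD x hxT)
      _ = 2 * D := by ring
  have h3 : μ K = ((B.card : ℝ≥0∞)⁻¹) ^ n * ∑ w ∈ V, μ (tau R w ⁻¹' K) := by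
    rw [S.level n K hK.isClosed.measurableSet]
    congr 1
    symm
    refine Finset.sum_subset (Finset.filter_subset _ _) fun w hw hwV => h1 w hw hwV
  have h4 : ((B.card : ℝ≥0∞)⁻¹) ^ n * (V.card : ℝ≥0∞) ≤ μ U := by
    rw [S.level n U hU.measurableSet]
    refine mul_le_mul_right ?_ _
    calc (V.card : ℝ≥0∞) = ∑ w ∈ V, μ (tau R w ⁻¹' U) := by
          rw [Finset.sum_congr rfl h2]; simp
      _ ≤ ∑ w ∈ W B n, μ (tau R w ⁻¹' U) :=
          Finset.sum_le_sum_of_subset (Finset.filter_subset _ _)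
  have h5 : ∀ w ∈ V, μ (tau R w ⁻¹' K) ≤ ENNReal.ofReal q := by
    intro w hw
    have hw1 := (Finset.mem_filter.1 hw).1
    have : μ (tau R w ⁻¹' K) ≤ μ (tau R w ⁻¹' A) := measure_mono (Set.preimage_mono hKA)
    refine this.trans ?_
    rw [← ENNReal.ofReal_toReal (measure_ne_top μ (tau R w ⁻¹' A))]
    exact ENNReal.ofReal_le_ofReal (hcon w hw1)
  have h6 : μ K ≤ ENNReal.ofReal q * μ U := by
    calc μ K = ((B.card : ℝ≥0∞)⁻¹) ^ n * ∑ w ∈ V, μ (tau R w ⁻¹' K) := h3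
      _ ≤ ((B.card : ℝ≥0∞)⁻¹) ^ n * ∑ w ∈ V, ENNReal.ofReal q :=
          mul_le_mul_right (Finset.sum_le_sum h5) _
      _ = ENNReal.ofReal q * (((B.card : ℝ≥0∞)⁻¹) ^ n * (V.card : ℝ≥0∞)) := by
          rw [Finset.sum_const, nsmul_eq_mul]; ring
      _ ≤ ENNReal.ofReal q * μ U := mul_le_mul_right h4 _
  have h7 : κ ≤ q * (μ U).toReal := by
    have := ENNReal.toReal_mono (by finiteness) h6
    rwa [ENNReal.toReal_mul, ENNReal.toReal_ofReal hq0] at this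
  have h8 : (μ U).toReal < κ + (1 - q) * κ := by
    have := (ENNReal.toReal_lt_toReal (measure_ne_top μ U) (by finiteness)).2 hUμ
    rwa [ENNReal.toReal_add (measure_ne_top _ _) (by finiteness),
      ENNReal.toReal_ofReal (mul_nonneg (by linarith) hκ0.le)] at this
  have h9 : q * (μ U).toReal ≤ q * (κ + (1 - q) * κ) := mul_le_mul_of_nonneg_left h8.le hq0
  nlinarith [mul_pos (mul_pos (sub_pos.2 hq) (sub_pos.2 hq)) hκ0]

end Sys
end

end Q50.SO
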