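import Mathlib
import Pool.Agent.Q50.SO.Meas

/-!
# Rigidity of the densities of the cells of a spectral self-affine measure
-/

set_option autoImplicit false

namespace Q50.SO

open Matrix MeasureTheory Filter Topology
open scoped ENNReal ComplexConjugate

/-- Elements with the same absolute values of the coefficients have the same norm. -/
theorem norm_eq_of_coeff {ι H : Type*} [NormedAddCommGroup H] [InnerProductSpace ℂ H]
    [CompleteSpace H] (e : ι → H) (he : Orthonormal ℂ e)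
    (hd : (Submodule.span ℂ (Set.range e)).topologicalClosure = ⊤) (x y : H)
    (h : ∀ i, ‖inner ℂ (e i) x‖ = ‖inner ℂ (e i) y‖) : ‖x‖ = ‖y‖ := by
  let b := HilbertBasis.mk he hd.ge
  have hb : ∀ i, b i = e i := fun i => by simp [b]
  have h1 : ∀ z : H, ‖z‖ = (∑' i, ‖inner ℂ (e i) z‖ ^ (2 : ℝ)) ^ (1 / (2 : ℝ)) := by
    intro z
    have h2 : ‖b.repr z‖ = ‖z‖ := b.repr.norm_map z
    rw [← h2, lp.norm_eq_tsum_rpow (by norm_num)]
    have h3 : ((2 : ℝ≥0∞).toReal) = (2 : ℝ) := by norm_num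
    rw [h3]
    congr 1
    refine tsum_congr fun i => ?_
    rw [b.repr_apply_apply, hb]
  rw [h1 x, h1 y]
  congr 1
  exact tsum_congr fun i => by rw [h i]

variable {d : ℕ}

/-- The exponential with frequency `l`. -/
noncomputable def ee (l x : Fin d → ℝ) : ℂ :=
  Complex.exp (2 * Real.pi * Complex.I * ((∑ i, l i * x i : ℝ) : ℂ))

theorem norm_ee (l x : Fin d → ℝ) : ‖ee l x‖ = 1 := by
  have : (2 * Real.pi * Complex.I * ((∑ i, l i * x i : ℝ) : ℂ)) =
      ((2 * Real.pi * (∑ i, l i * x i) : ℝ) : ℂ) * Complex.I := by push_cast; ring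
  rw [ee, this, Complex.norm_exp_ofReal_mul_I]

theorem ee_add (l x y : Fin d → ℝ) : ee l (x + y) = ee l x * ee l y := by
  rw [ee, ee, ee, ← Complex.exp_add]
  congr 1
  have : (∑ i, l i * (x + y) i) = (∑ i, l i * x i) + ∑ i, l i * y i := by
    rw [← Finset.sum_add_distrib]
    exact Finset.sum_congr rfl fun i _ => by simp [mul_add]
  rw [this]; push_cast; ring

theorem continuous_ee (l : Fin d → ℝ) : Continuous (ee l) := by
  unfold ee; fun_prop

section
variable {R : Matrix (Fin d) (Fin d) ℤ} {B : Finset (Fin d → ℤ)}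
    {μ : Measure (Fin d → ℝ)} {T : Set (Fin d → ℝ)} {r : ℕ → ℝ}

/-- The part of the measure that comes from the word `w`. -/
noncomputable def nu (R : Matrix (Fin d) (Fin d) ℤ) (B : Finset (Fin d → ℤ))
    (μ : Measure (Fin d → ℝ)) (w : List (Fin d → ℤ)) : Measure (Fin d → ℝ) :=
  ((B.card : ℝ≥0∞)⁻¹) ^ w.length • μ.map (tau R w)

theorem nu_apply (w : List (Fin d → ℤ)) {E : Set (Fin d → ℝ)} (hE : MeasurableSet E) :
    nu R B μ w E = ((B.card : ℝ≥0∞)⁻¹) ^ w.length * μ (tau R w ⁻¹' E) := by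
  rw [nu, Measure.smul_apply, Measure.map_apply (measurable_tau w) hE, smul_eq_mul]

/-- The density of the part. -/
noncomputable def hh (R : Matrix (Fin d) (Fin d) ℤ) (B : Finset (Fin d → ℤ))
    (μ : Measure (Fin d → ℝ)) (w : List (Fin d → ℤ)) : (Fin d → ℝ) → ℝ≥0∞ :=
  (nu R B μ w).rnDeriv μ

theorem measurable_hh (w : List (Fin d → ℤ)) : Measurable (hh R B μ w) :=
  Measure.measurable_rnDeriv _ _

/-- The density of the part in the coordinates of the cell. -/
noncomputable def GG (R : Matrix (Fin d) (Fin d) ℤ) (B : Finset (Fin d → ℤ))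
    (μ : Measure (Fin d → ℝ)) (w : List (Fin d → ℤ)) (x : Fin d → ℝ) : ℝ≥0∞ :=
  hh R B μ w (tau R w x)

theorem measurable_GG (w : List (Fin d → ℤ)) : Measurable (GG R B μ w) :=
  (measurable_hh w).comp (measurable_tau w)

namespace Sys
variable (S : Sys R B μ T r)
include S

theorem nu_le {n : ℕ} {w : List (Fin d → ℤ)} (hw : w ∈ W B n) : nu R B μ w ≤ μ := by
  rw [Measure.le_iff]
  intro E hE
  rw [nu_apply w hE, S.level n E hE, length_of_mem hw]
  exact mul_le_mul_right (Finset.single_le_sum (f := fun w => μ (tau R w ⁻¹' E))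
    (fun _ _ => bot_le) hw) _

theorem finite_nu (w : List (Fin d → ℤ)) : IsFiniteMeasure (nu R B μ w) := by
  have := S.prob
  refine ⟨?_⟩
  rw [nu_apply w MeasurableSet.univ]
  exact ENNReal.mul_lt_top (S.c_ne_top _).lt_top (measure_lt_top _ _)

theorem hld (w : List (Fin d → ℤ)) : (nu R B μ w).HaveLebesgueDecomposition μ := by
  have := S.prob
  have := S.finite_nu w
  exact Measure.haveLebesgueDecomposition_of_sigmaFinite _ _

theorem nu_ac {n : ℕ} {w : List (Fin d → ℤ)} (hw : w ∈ W B n) : nu R B μ w ≪ μ :=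
  (S.nu_le hw).absolutelyContinuous

theorem map_ac {n : ℕ} {w : List (Fin d → ℤ)} (hw : w ∈ W B n) : μ.map (tau R w) ≪ μ := by
  intro E hE
  have h1 := S.nu_ac hw hE
  rw [nu, Measure.smul_apply, smul_eq_mul, mul_eq_zero] at h1
  exact h1.resolve_left (S.c_ne_zero _)

theorem ae_comp {n : ℕ} {w : List (Fin d → ℤ)} (hw : w ∈ W B n) {p : (Fin d → ℝ) → Prop}
    (h : ∀ᵐ x ∂μ, p x) : ∀ᵐ x ∂μ, p (tau R w x) :=
  ae_of_ae_map (measurable_tau w).aemeasurable ((S.map_ac hw).ae_le h)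

theorem hh_le_one {n : ℕ} {w : List (Fin d → ℤ)} (hw : w ∈ W B n) :
    ∀ᵐ x ∂μ, hh R B μ w x ≤ 1 := by
  have := S.prob
  have := S.finite_nu w
  exact Measure.rnDeriv_le_one_of_le (S.nu_le hw)

theorem GG_le_one {n : ℕ} {w : List (Fin d → ℤ)} (hw : w ∈ W B n) :
    ∀ᵐ x ∂μ, GG R B μ w x ≤ 1 :=
  S.ae_comp hw (S.hh_le_one hw)

theorem GG_pos {n : ℕ} {w : List (Fin d → ℤ)} (hw : w ∈ W B n) :
    ∀ᵐ x ∂μ, 0 < GG R B μ w x := by
  have := S.prob
  have := S.finite_nu w
  have := S.hld w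
  have h1 : ∀ᵐ x ∂(nu R B μ w), 0 < (nu R B μ w).rnDeriv μ x :=
    Measure.rnDeriv_pos (S.nu_ac hw)
  have h2 : ∀ᵐ x ∂(μ.map (tau R w)), 0 < (nu R B μ w).rnDeriv μ x := by
    rw [ae_iff] at h1 ⊢
    rw [nu, Measure.smul_apply, smul_eq_mul] at h1
    exact (mul_eq_zero.1 h1).resolve_left (S.c_ne_zero _)
  exact ae_of_ae_map (measurable_tau w).aemeasurable h2

theorem withDensity_hh {n : ℕ} {w : List (Fin d → ℤ)} (hw : w ∈ W B n) :
    μ.withDensity (hh R B μ w) = nu R B μ w := by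
  have := S.prob
  have := S.finite_nu w
  have := S.hld w
  exact Measure.withDensity_rnDeriv_eq _ _ (S.nu_ac hw)

theorem integral_hh {n : ℕ} {w : List (Fin d → ℤ)} (hw : w ∈ W B n) (f : (Fin d → ℝ) → ℂ)
    (hf : AEStronglyMeasurable f (μ.map (tau R w))) :
    ∫ z, ((hh R B μ w z).toReal : ℂ) * f z ∂μ =
      ((((B.card : ℝ≥0∞)⁻¹) ^ n).toReal : ℂ) * ∫ x, f (tau R w x) ∂μ := by
  have := S.prob
  have := S.finite_nu w
  have := S.hld w
  have h1 := integral_rnDeriv_smul (μ := nu R B μ w) (ν := μ) (S.nu_ac hw) (f := f)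
  have h2 : ∀ z, ((nu R B μ w).rnDeriv μ z).toReal • f z =
      ((hh R B μ w z).toReal : ℂ) * f z := by
    intro z; rw [Complex.real_smul]; rfl
  simp_rw [h2] at h1
  rw [h1, nu, integral_smul_measure, integral_map (measurable_tau w).aemeasurable hf,
    length_of_mem hw, Complex.real_smul]

variable (Λ : Set (Fin d → ℝ)) (e : Λ → Lp ℂ 2 μ)
  (he : ∀ l : Λ, (e l : (Fin d → ℝ) → ℂ) =ᵐ[μ] ee (l : Fin d → ℝ))
  (ho : Orthonormal ℂ e)
  (hd : (Submodule.span ℂ (Set.range e)).topologicalClosure = ⊤)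
include he ho hd

theorem rigid_int {n : ℕ} {v w : List (Fin d → ℤ)} (hv : v ∈ W B n) (hw : w ∈ W B n)
    {F : Set (Fin d → ℝ)} (hF : MeasurableSet F) :
    ∫ x in F, (GG R B μ v x).toReal ∂μ = ∫ x in F, (GG R B μ w x).toReal ∂μ := by
  have := S.prob
  -- the test function
  set f : List (Fin d → ℤ) → (Fin d → ℝ) → ℂ := fun w z =>
    ((hh R B μ w z).toReal : ℂ) * F.indicator (fun _ => (1 : ℂ)) (sig R w z) with hf
  have hind : ∀ w, Measurable (fun z => F.indicator (fun _ => (1 : ℂ)) (sig R w z)) := fun w =>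
    (measurable_const.indicator hF).comp (measurable_sig w)
  have hfm : ∀ w, Measurable (f w) := fun w =>
    (Complex.measurable_ofReal.comp (measurable_hh w).ennreal_toReal).mul (hind w)
  have hfb : ∀ w ∈ W B n, ∀ᵐ z ∂μ, ‖f w z‖ ≤ 1 := by
    intro w hw
    filter_upwards [S.hh_le_one hw] with z hz
    have h1 : ‖((hh R B μ w z).toReal : ℂ)‖ ≤ 1 := by
      rw [Complex.norm_real, Real.norm_eq_abs, abs_of_nonneg ENNReal.toReal_nonneg]
      exact ENNReal.toReal_le_of_le_ofReal zero_le_one (by simpa using hz)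
    have h2 : ‖F.indicator (fun _ => (1 : ℂ)) (sig R w z)‖ ≤ 1 := by
      by_cases h : sig R w z ∈ F <;> simp [h]
    rw [hf]
    simp only [norm_mul]
    exact mul_le_one₀ h1 (norm_nonneg _) h2
  have hmem : ∀ w ∈ W B n, MemLp (f w) 2 μ := fun w hw =>
    MemLp.of_bound (hfm w).aestronglyMeasurable 1 (hfb w hw)
  -- the coefficients
  have hcoef : ∀ w, ∀ hw : w ∈ W B n, ∀ l : Λ,
      inner ℂ (e l) ((hmem w hw).toLp (f w)) =
        ((((B.card : ℝ≥0∞)⁻¹) ^ n).toReal : ℂ) *
          (conj (ee (l : Fin d → ℝ) ((LL R) ^ n *ᵥ cst (sv R w))) *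
            ∫ x, conj (ee (l : Fin d → ℝ) ((LL R) ^ n *ᵥ x)) *
              F.indicator (fun _ => (1 : ℂ)) x ∂μ) := by
    intro w hw l
    rw [L2.inner_def]
    have h1 : ∀ᵐ z ∂μ, inner ℂ ((e l : (Fin d → ℝ) → ℂ) z) (((hmem w hw).toLp (f w)) z) =
        ((hh R B μ w z).toReal : ℂ) * (conj (ee (l : Fin d → ℝ) z) *
          F.indicator (fun _ => (1 : ℂ)) (sig R w z)) := by
      filter_upwards [he l, (hmem w hw).coeFn_toLp] with z hz1 hz2
      rw [hz1, hz2]
      simp only [hf, RCLike.inner_apply']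
      ring
    rw [integral_congr_ae h1, S.integral_hh hw]
    · congr 1
      rw [← integral_const_mul]
      refine integral_congr_ae (Eventually.of_forall fun x => ?_)
      simp only
      rw [sig_tau S.det]
      have h2 : ee (l : Fin d → ℝ) (tau R w x) =
          ee (l : Fin d → ℝ) ((LL R) ^ n *ᵥ cst (sv R w)) *
            ee (l : Fin d → ℝ) ((LL R) ^ n *ᵥ x) := by
        rw [← ee_add, tau, Matrix.mulVec_add, length_of_mem hw, add_comm]
      rw [h2, map_mul]
      ring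
    · refine Measurable.aestronglyMeasurable ?_
      exact ((Complex.continuous_conj.comp (continuous_ee _)).measurable).mul (hind w)
  have hnorm : ‖(hmem v hv).toLp (f v)‖ = ‖(hmem w hw).toLp (f w)‖ := by
    refine norm_eq_of_coeff e ho hd _ _ fun l => ?_
    rw [hcoef v hv l, hcoef w hw l]
    simp only [norm_mul, RCLike.norm_conj, norm_ee]
  -- the norms
  have hsq : ∀ w, ∀ hw : w ∈ W B n, inner ℂ ((hmem w hw).toLp (f w)) ((hmem w hw).toLp (f w)) =
      ((((B.card : ℝ≥0∞)⁻¹) ^ n).toReal : ℂ) *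
        ((∫ x in F, (GG R B μ w x).toReal ∂μ : ℝ) : ℂ) := by
    intro w hw
    rw [L2.inner_def]
    have h1 : ∀ᵐ z ∂μ, inner ℂ (((hmem w hw).toLp (f w)) z) (((hmem w hw).toLp (f w)) z) =
        ((hh R B μ w z).toReal : ℂ) * (((hh R B μ w z).toReal : ℂ) *
          F.indicator (fun _ => (1 : ℂ)) (sig R w z)) := by
      filter_upwards [(hmem w hw).coeFn_toLp] with z hz2
      rw [hz2]
      simp only [hf, RCLike.inner_apply', map_mul, Complex.conj_ofReal]
      by_cases h : sig R w z ∈ F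
      · simp [h]
      · simp [h]
    rw [integral_congr_ae h1, S.integral_hh hw]
    · congr 1
      have h2 : ∀ x, ((hh R B μ w (tau R w x)).toReal : ℂ) *
          F.indicator (fun _ => (1 : ℂ)) (sig R w (tau R w x)) =
          F.indicator (fun x => (((GG R B μ w x).toReal : ℝ) : ℂ)) x := by
        intro x
        rw [sig_tau S.det]
        by_cases h : x ∈ F
        · simp [h, GG]
        · simp [h]
      simp_rw [h2]
      rw [integral_indicator hF]
      exact integral_ofReal (𝕜 := ℂ)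
    · refine Measurable.aestronglyMeasurable ?_
      exact (Complex.measurable_ofReal.comp (measurable_hh w).ennreal_toReal).mul (hind w)
  have hc : ((((B.card : ℝ≥0∞)⁻¹) ^ n).toReal : ℂ) ≠ 0 := by
    have : (((B.card : ℝ≥0∞)⁻¹) ^ n).toReal ≠ 0 :=
      (ENNReal.toReal_pos (S.c_ne_zero n) (S.c_ne_top n)).ne'
    exact_mod_cast this
  have h3 := hsq v hv
  have h4 := hsq w hw
  rw [inner_self_eq_norm_sq_to_K] at h3 h4
  rw [hnorm, h4] at h3
  have h5 := mul_left_cancel₀ hc h3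
  exact_mod_cast h5.symm

theorem rigid {n : ℕ} {v w : List (Fin d → ℤ)} (hv : v ∈ W B n) (hw : w ∈ W B n) :
    ∀ᵐ x ∂μ, GG R B μ v x = GG R B μ w x := by
  have := S.prob
  have hint : ∀ w ∈ W B n, Integrable (fun x => (GG R B μ w x).toReal) μ := by
    intro w hw
    refine Integrable.of_bound (measurable_GG w).ennreal_toReal.aestronglyMeasurable 1 ?_
    filter_upwards [S.GG_le_one hw] with x hx
    rw [Real.norm_eq_abs, abs_of_nonneg ENNReal.toReal_nonneg]
    exact ENNReal.toReal_le_of_le_ofReal zero_le_one (by simpa using hx)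
  have h1 : (fun x => (GG R B μ v x).toReal) =ᵐ[μ] (fun x => (GG R B μ w x).toReal) := by
    refine Integrable.ae_eq_of_forall_setIntegral_eq _ _ (hint v hv) (hint w hw) ?_
    intro F hF _
    exact S.rigid_int Λ e he ho hd hv hw hF
  filter_upwards [h1, S.GG_le_one hv, S.GG_le_one hw] with x hx h2 h3
  exact (ENNReal.toReal_eq_toReal_iff' (ne_top_of_le_ne_top ENNReal.one_ne_top h2)
    (ne_top_of_le_ne_top ENNReal.one_ne_top h3)).1 hx

end Sys
end

end Q50.SO
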