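import Mathlib
import Pool.Agent.Q50.SO.Rigid

/-!
# The densities of the cells of a spectral self-affine measure are one
-/

set_option autoImplicit false

namespace Q50.SO

open Matrix MeasureTheory Filter Topology
open scoped ENNReal ComplexConjugate

variable {d : ℕ}

section
variable {R : Matrix (Fin d) (Fin d) ℤ} {B : Finset (Fin d → ℤ)}
    {μ : Measure (Fin d → ℝ)} {T : Set (Fin d → ℝ)} {r : ℕ → ℝ}

namespace Sys
variable (S : Sys R B μ T r)
include S

theorem nu_append {m n : ℕ} {v w : List (Fin d → ℤ)} (hv : v ∈ W B m) (hw : w ∈ W B n) :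
    nu R B μ (v ++ w) = μ.withDensity (fun z => hh R B μ v z * hh R B μ w (sig R v z)) := by
  have := S.prob
  ext E hE
  have hm : Measurable (fun z => hh R B μ w (sig R v z)) :=
    (measurable_hh w).comp (measurable_sig v)
  have h1 : μ.withDensity (fun z => hh R B μ v z * hh R B μ w (sig R v z)) E =
      ∫⁻ z in E, hh R B μ w (sig R v z) ∂(nu R B μ v) := by
    rw [withDensity_apply _ hE, ← S.withDensity_hh hv,
      setLIntegral_withDensity_eq_setLIntegral_mul _ (measurable_hh v) hm hE]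
    rfl
  rw [h1, nu, nu, Measure.smul_apply, Measure.map_apply (measurable_tau _) hE,
    Measure.restrict_smul, lintegral_smul_measure, setLIntegral_map hE hm (measurable_tau v),
    List.length_append, pow_add, smul_eq_mul, smul_eq_mul, mul_assoc]
  congr 1
  have h2 : ∀ x, hh R B μ w (sig R v (tau R v x)) = hh R B μ w x := fun x => by
    rw [sig_tau S.det]
  simp_rw [h2]
  rw [← withDensity_apply _ (measurable_tau v hE), S.withDensity_hh hw,
    nu_apply w (measurable_tau v hE)]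
  congr 2
  ext x
  simp only [Set.mem_preimage]
  rw [tau_append S.det]

theorem hh_append {m n : ℕ} {v w : List (Fin d → ℤ)} (hv : v ∈ W B m) (hw : w ∈ W B n) :
    ∀ᵐ z ∂μ, hh R B μ (v ++ w) z = hh R B μ v z * hh R B μ w (sig R v z) := by
  have := S.prob
  have h1 := Measure.rnDeriv_withDensity μ
    (f := fun z => hh R B μ v z * hh R B μ w (sig R v z))
    ((measurable_hh v).mul ((measurable_hh w).comp (measurable_sig v)))
  rw [← S.nu_append hv hw] at h1
  exact h1

theorem GG_append {m n : ℕ} {v w : List (Fin d → ℤ)} (hv : v ∈ W B m) (hw : w ∈ W B n) :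
    ∀ᵐ x ∂μ, GG R B μ (v ++ w) x = GG R B μ v (tau R w x) * GG R B μ w x := by
  filter_upwards [S.ae_comp (append_mem hv hw) (S.hh_append hv hw)] with x hx
  rw [GG, hx, GG, GG, tau_append S.det, sig_tau S.det]

/-- measures of unions of two cells -/
theorem nu_add_le {n : ℕ} {v w : List (Fin d → ℤ)} (hv : v ∈ W B n) (hw : w ∈ W B n)
    (hne : v ≠ w) {E : Set (Fin d → ℝ)} (hE : MeasurableSet E) :
    nu R B μ v E + nu R B μ w E ≤ μ E := by
  classical
  rw [nu_apply v hE, nu_apply w hE, S.level n E hE, length_of_mem hw, length_of_mem hv, ← mul_add]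
  refine mul_le_mul_right ?_ _
  rw [← Finset.sum_pair (f := fun u => μ (tau R u ⁻¹' E)) hne]
  refine Finset.sum_le_sum_of_subset ?_
  intro u hu
  rcases Finset.mem_insert.1 hu with rfl | hu
  · exact hv
  · rw [Finset.mem_singleton.1 hu]; exact hw

theorem not_both {b b' : Fin d → ℤ} (hne : b ≠ b') {x0 : Fin d → ℝ}
    (hx0 : x0 ∈ T.extremePoints ℝ) (hb : b ∈ B) (hb' : b' ∈ B) (h : x0 ∈ tau R [b] '' T) :
    x0 ∉ tau R [b'] '' T := by
  rintro ⟨y, hy, hy2⟩
  obtain ⟨x, hx, hx2⟩ := h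
  have h1 : tau R [b'] x ∈ T := tau_maps S.det S.att (single_mem hb') hx
  have h2 : tau R [b] y ∈ T := tau_maps S.det S.att (single_mem hb) hy
  have h3 : x0 ∈ openSegment ℝ (tau R [b'] x) (tau R [b] y) := by
    refine ⟨1 / 2, 1 / 2, by norm_num, by norm_num, by norm_num, ?_⟩
    have h4 : tau R [b'] x + tau R [b] y = tau R [b] x + tau R [b'] y := by
      simp only [tau_single, ← Matrix.mulVec_add]
      congr 1
      abel
    rw [← smul_add, h4, hx2, hy2, ← two_smul ℝ x0, smul_smul]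
    norm_num
  have h5 := (mem_extremePoints.1 hx0).2 _ h1 _ h2 h3
  have h6 : tau R [b'] x = tau R [b] x := by rw [h5.1, hx2]
  apply hne
  apply cst_inj
  rw [tau_single, tau_single] at h6
  have h7 := congrArg (fun z => (RR R) *ᵥ z) h6
  have h8 : ∀ z : Fin d → ℝ, (RR R) *ᵥ ((LL R) *ᵥ z) = z := by
    intro z
    have := RL_vec S.det 1 z
    simpa using this
  simp only [h8] at h7
  exact (add_left_cancel h7).symm

theorem exists_GG_one : ∃ b ∈ B, ¬ ∀ᵐ x ∂μ, GG R B μ [b] x ≠ 1 := by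
  have := S.prob
  obtain ⟨x0, hx0⟩ := S.cpt.extremePoints_nonempty S.ne
  have hx0T : x0 ∈ T := hx0.1
  have h1 : x0 ∈ ⋃ b ∈ B, tau R [b] '' T := S.att ▸ hx0T
  simp only [Set.mem_iUnion] at h1
  obtain ⟨b, hb, hxb⟩ := h1
  refine ⟨b, hb, ?_⟩
  classical
  set U : Set (Fin d → ℝ) := (⋃ b' ∈ B.erase b, tau R [b'] '' T)ᶜ with hU
  have hUo : IsOpen U := by
    rw [hU, isOpen_compl_iff]
    refine (B.erase b).finite_toSet.isClosed_biUnion fun b' _ => ?_
    exact (S.cpt.image (continuous_tau R [b'])).isClosed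
  have hxU : x0 ∈ U := by
    rw [hU, Set.mem_compl_iff]
    simp only [Set.mem_iUnion, not_exists]
    intro b' hb'
    exact S.not_both (Finset.ne_of_mem_erase hb').symm hx0 hb (Finset.mem_of_mem_erase hb') hxb
  -- on `U` the measure is the one of the word `b`
  have h2 : (nu R B μ [b]).restrict U = μ.restrict U := by
    ext E hE
    rw [Measure.restrict_apply hE, Measure.restrict_apply hE,
      nu_apply _ (hE.inter hUo.measurableSet), S.self _ (hE.inter hUo.measurableSet),
      Finset.sum_eq_single b]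
    · simp
    · intro b' hb' hne
      refine measure_mono_null ?_ S.compl_T
      intro x hx hxT
      apply hx.2
      simp only [Set.mem_iUnion]
      exact ⟨b', Finset.mem_erase.2 ⟨hne, hb'⟩, x, hxT, rfl⟩
    · intro h; exact absurd hb h
  have := S.finite_nu [b]
  have := S.hld [b]
  have h3 := Measure.rnDeriv_restrict (nu R B μ [b]) μ hUo.measurableSet
  have h4 := Measure.rnDeriv_restrict_self μ hUo.measurableSet
  rw [h2] at h3
  have h5 : ∀ᵐ z ∂μ, z ∈ U → hh R B μ [b] z = 1 := by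
    filter_upwards [h3, h4] with z hz1 hz2 hzU
    rw [hz1] at hz2
    simpa [Set.indicator_of_mem hzU, hh] using hz2
  have h6 := S.ae_comp (single_mem hb) h5
  intro h7
  obtain ⟨y, hy, hy2⟩ := hxb
  refine S.pos_of_open hy (hUo.preimage (continuous_tau R [b]))
    (show tau R [b] y ∈ U by rw [hy2]; exact hxU) ?_
  have h8 : ∀ᵐ x ∂μ, x ∉ tau R [b] ⁻¹' U := by
    filter_upwards [h6, h7] with x h9 h10 h11
    exact h10 (h9 h11)
  rw [ae_iff] at h8
  simp only [not_not] at h8
  exact h8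

variable (Λ : Set (Fin d → ℝ)) (e : Λ → Lp ℂ 2 μ)
  (he : ∀ l : Λ, (e l : (Fin d → ℝ) → ℂ) =ᵐ[μ] ee (l : Fin d → ℝ))
  (ho : Orthonormal ℂ e)
  (hd : (Submodule.span ℂ (Set.range e)).topologicalClosure = ⊤)
include he ho hd

theorem GG_shift {b : Fin d → ℤ} (hb : b ∈ B) {n : ℕ} {v w : List (Fin d → ℤ)}
    (hv : v ∈ W B n) (hw : w ∈ W B n) :
    ∀ᵐ x ∂μ, GG R B μ [b] (tau R v x) = GG R B μ [b] (tau R w x) := by
  filter_upwards [S.GG_append (single_mem hb) hv, S.GG_append (single_mem hb) hw,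
    S.rigid Λ e he ho hd hv hw,
    S.rigid Λ e he ho hd (append_mem (single_mem hb) hv) (append_mem (single_mem hb) hw),
    S.GG_pos hw, S.GG_le_one hw] with x h1 h2 h3 h4 h5 h6
  rw [h1, h2, h3] at h4
  exact (ENNReal.mul_left_inj h5.ne' (ne_top_of_le_ne_top ENNReal.one_ne_top h6)).1 h4

theorem GG_level {b : Fin d → ℤ} (hb : b ∈ B) {n : ℕ} {w : List (Fin d → ℤ)}
    (hw : w ∈ W B n) (t : ℝ≥0∞) :
    μ (tau R w ⁻¹' {x | t < GG R B μ [b] x}) = μ {x | t < GG R B μ [b] x} := by
  have hA : MeasurableSet {x | t < GG R B μ [b] x} :=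
    measurableSet_lt measurable_const (measurable_GG [b])
  rw [S.level n _ hA]
  have h1 : ∀ v ∈ W B n, μ (tau R v ⁻¹' {x | t < GG R B μ [b] x}) =
      μ (tau R w ⁻¹' {x | t < GG R B μ [b] x}) := by
    intro v hv
    refine measure_congr ?_
    filter_upwards [S.GG_shift Λ e he ho hd hb hv hw] with x hx
    refine propext ?_
    show t < GG R B μ [b] (tau R v x) ↔ t < GG R B μ [b] (tau R w x)
    rw [hx]
  rw [Finset.sum_congr rfl h1, Finset.sum_const, nsmul_eq_mul, ← mul_assoc, S.c_mul, one_mul]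

theorem GG_single {b : Fin d → ℤ} (hb : b ∈ B) : ∀ᵐ x ∂μ, GG R B μ [b] x = 1 := by
  have := S.prob
  obtain ⟨b1, hb1, h1⟩ := S.exists_GG_one
  have h2 : ∀ᵐ x ∂μ, GG R B μ [b1] x = 1 := by
    have h3 : ∀ k : ℕ, ∀ᵐ x ∂μ, 1 - ((k : ℝ≥0∞) + 1)⁻¹ < GG R B μ [b1] x := by
      intro k
      set t : ℝ≥0∞ := 1 - ((k : ℝ≥0∞) + 1)⁻¹ with ht
      have ht1 : t < 1 := ENNReal.sub_lt_self ENNReal.one_ne_top one_ne_zero
        (ENNReal.inv_ne_zero.2 (by finiteness))
      set A : Set (Fin d → ℝ) := {x | t < GG R B μ [b1] x} with hA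
      have hAm : MeasurableSet A := measurableSet_lt measurable_const (measurable_GG [b1])
      have hA0 : μ A ≠ 0 := by
        intro h0
        apply h1
        have : ∀ᵐ x ∂μ, x ∉ A := by rw [ae_iff]; simpa using h0
        filter_upwards [this] with x hx h4
        apply hx
        show t < GG R B μ [b1] x
        rw [h4]; exact ht1
      have hA1 : μ A = 1 := by
        by_contra hne
        have h5 : μ A < 1 := lt_of_le_of_ne prob_le_one hne
        have h6 : (μ A).toReal < 1 := by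
          have := (ENNReal.toReal_lt_toReal (measure_ne_top μ A) ENNReal.one_ne_top).2 h5
          simpa using this
        obtain ⟨n, -, w, hw, h7⟩ := S.exists_dense_cell hAm hA0 h6 0
        rw [S.GG_level Λ e he ho hd hb1 hw t] at h7
        exact lt_irrefl _ h7
      rw [ae_iff]
      have : {a | ¬ t < GG R B μ [b1] a} = Aᶜ := rfl
      rw [this]
      exact (prob_compl_eq_zero_iff hAm).2 hA1
    filter_upwards [ae_all_iff.2 h3, S.GG_le_one (single_mem hb1)] with x hx hx1
    refine le_antisymm hx1 ?_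
    by_contra hlt
    push Not at hlt
    -- find k with GG ≤ 1 - 1/(k+1)
    obtain ⟨k, hk⟩ := ENNReal.exists_inv_nat_lt (a := 1 - GG R B μ [b1] x)
      (by rw [Ne, tsub_eq_zero_iff_le, not_le]; exact hlt)
    have h4 := hx k
    have h5 : ((k : ℝ≥0∞) + 1)⁻¹ ≤ (k : ℝ≥0∞)⁻¹ := ENNReal.inv_le_inv.2 le_self_add
    have h6 : ((k : ℝ≥0∞) + 1)⁻¹ ≤ 1 - GG R B μ [b1] x := h5.trans hk.le
    have h7 : GG R B μ [b1] x ≤ 1 - ((k : ℝ≥0∞) + 1)⁻¹ := by
      refine ENNReal.le_sub_of_add_le_left (ne_top_of_le_ne_top (by finiteness) h6) ?_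
      calc ((k : ℝ≥0∞) + 1)⁻¹ + GG R B μ [b1] x ≤ (1 - GG R B μ [b1] x) + GG R B μ [b1] x :=
            add_le_add_left h6 _
        _ = 1 := tsub_add_cancel_of_le hx1
    exact absurd h4 (not_lt.2 h7)
  filter_upwards [S.rigid Λ e he ho hd (single_mem hb) (single_mem hb1), h2] with x h3 h4
  rw [h3, h4]

theorem GG_eq_one {n : ℕ} {w : List (Fin d → ℤ)} (hw : w ∈ W B n) :
    ∀ᵐ x ∂μ, GG R B μ w x = 1 := by
  induction n generalizing w with
  | zero =>
    have h0 : w = [] := by simpa [W] using hw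
    subst h0
    have := S.prob
    have h1 : nu R B μ [] = μ := by
      ext E hE
      rw [nu_apply _ hE]
      have : tau R [] ⁻¹' E = E := by ext x; simp [tau_nil]
      simp [this]
    have h2 : ∀ᵐ x ∂μ, hh R B μ [] x = 1 := by
      rw [hh, h1]; exact Measure.rnDeriv_self μ
    exact S.ae_comp nil_mem h2
  | succ n ih =>
    simp only [W, Finset.mem_image, Finset.mem_product, Prod.exists] at hw
    obtain ⟨b, v, ⟨hb, hv⟩, rfl⟩ := hw
    have h1 : b :: v = [b] ++ v := rfl
    rw [h1]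
    filter_upwards [S.GG_append (single_mem hb) hv, ih hv,
      S.ae_comp hv (S.GG_single Λ e he ho hd hb)] with x h2 h3 h4
    rw [h2, h3, h4, mul_one]

theorem sv_injOn {n : ℕ} {v w : List (Fin d → ℤ)} (hv : v ∈ W B n) (hw : w ∈ W B n)
    (h : sv R v = sv R w) : v = w := by
  by_contra hne
  have := S.prob
  have := S.finite_nu v
  have hnu : nu R B μ w = nu R B μ v := by
    have htau : tau R w = tau R v := by
      funext x
      rw [tau, tau, h, length_of_mem hv, length_of_mem hw]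
    rw [nu, nu, htau, length_of_mem hv, length_of_mem hw]
  set E : Set (Fin d → ℝ) := {z | hh R B μ v z = 1} with hE
  have hEm : MeasurableSet E := (measurable_hh v) (measurableSet_singleton 1)
  have h1 := S.nu_add_le hv hw hne hEm
  rw [hnu] at h1
  have h2 : nu R B μ v E = μ E := by
    rw [← S.withDensity_hh hv, withDensity_apply _ hEm]
    have : ∫⁻ z in E, hh R B μ v z ∂μ = ∫⁻ _ in E, 1 ∂μ :=
      setLIntegral_congr_fun hEm fun z hz => hz
    rw [this]; simp
  have h3 : nu R B μ v E = ((B.card : ℝ≥0∞)⁻¹) ^ n := by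
    rw [nu_apply v hEm, length_of_mem hv]
    have : μ (tau R v ⁻¹' E) = 1 := by
      rw [← prob_compl_eq_zero_iff (measurable_tau v hEm)]
      have h4 := S.GG_eq_one Λ e he ho hd hv
      rw [ae_iff] at h4
      exact h4
    rw [this, mul_one]
  rw [← h2, h3] at h1
  have h5 := S.c_ne_top n
  have h6 := S.c_ne_zero n
  have h7 : ((B.card : ℝ≥0∞)⁻¹) ^ n < ((B.card : ℝ≥0∞)⁻¹) ^ n + ((B.card : ℝ≥0∞)⁻¹) ^ n :=
    ENNReal.lt_add_right h5 h6
  exact absurd h1 (not_le.2 h7)

end Sys
end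

end Q50.SO
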