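import Mathlib

/-!
# Powers of the inverse of an expanding integer matrix
-/

set_option autoImplicit false

namespace Q50.SO

open Matrix Filter Topology
open scoped ENNReal NNReal

attribute [local instance] Matrix.linftyOpNormedRing Matrix.linftyOpNormedAlgebra

/-- In a complex Banach algebra the powers of an element of spectral radius less than one tend to
zero. -/
theorem pow_tendsto_zero {A : Type*} [NormedRing A] [NormedAlgebra ℂ A] [CompleteSpace A] (a : A)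
    (h : spectralRadius ℂ a < 1) : Tendsto (fun n : ℕ => ‖a ^ n‖) atTop (𝓝 0) := by
  obtain ⟨q, hq1, hq2⟩ := ENNReal.lt_iff_exists_nnreal_btwn.1 h
  have hlim := spectrum.pow_nnnorm_pow_one_div_tendsto_nhds_spectralRadius a
  have hev : ∀ᶠ n : ℕ in atTop, ((‖a ^ n‖₊ : ℝ≥0∞) ^ (1 / n : ℝ)) < q :=
    hlim.eventually (gt_mem_nhds hq1)
  have hq : (q : ℝ) < 1 := by exact_mod_cast hq2
  have hb : ∀ᶠ n : ℕ in atTop, ‖a ^ n‖ ≤ (q : ℝ) ^ n := by
    filter_upwards [hev, eventually_gt_atTop 0] with n hn hn0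
    have h0 : (0 : ℝ) < n := by exact_mod_cast hn0
    have h1 : (‖a ^ n‖₊ : ℝ≥0∞) ≤ (q : ℝ≥0∞) ^ (n : ℝ) := by
      have := ENNReal.rpow_le_rpow hn.le h0.le
      rwa [← ENNReal.rpow_mul, one_div, inv_mul_cancel₀ h0.ne', ENNReal.rpow_one] at this
    rw [ENNReal.rpow_natCast] at h1
    have h2 : ‖a ^ n‖₊ ≤ q ^ n := by exact_mod_cast h1
    exact_mod_cast h2
  have hz : Tendsto (fun n : ℕ => (q : ℝ) ^ n) atTop (𝓝 0) :=
    tendsto_pow_atTop_nhds_zero_of_lt_one q.2 hq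
  exact squeeze_zero' (Eventually.of_forall fun n => norm_nonneg _) hb hz

variable {d : ℕ}

theorem det_ne_zero (R : Matrix (Fin d) (Fin d) ℤ)
    (hR : ∀ z : ℂ, (R.map (Int.castRingHom ℂ)).charpoly.IsRoot z → 1 < ‖z‖) :
    (R.map (Int.castRingHom ℝ)).det ≠ 0 := by
  intro h
  have h1 : R.det = 0 := by
    have h2 : ((R.det : ℤ) : ℝ) = 0 := by
      have := (Int.castRingHom ℝ).map_det R
      simp only [RingHom.mapMatrix_apply] at this
      rw [h] at this
      simpa using this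
    exact_mod_cast h2
  have h3 : (R.map (Int.castRingHom ℂ)).det = 0 := by
    have := (Int.castRingHom ℂ).map_det R
    simp only [RingHom.mapMatrix_apply] at this
    rw [← this, h1]; simp
  have h4 : (R.map (Int.castRingHom ℂ)).charpoly.IsRoot 0 := by
    rw [← Matrix.mem_spectrum_iff_isRoot_charpoly]
    rw [spectrum.zero_mem_iff, Matrix.isUnit_iff_isUnit_det, h3]
    simp
  have := hR 0 h4
  simp at this
  linarith

theorem exists_rate (R : Matrix (Fin d) (Fin d) ℤ)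
    (hR : ∀ z : ℂ, (R.map (Int.castRingHom ℂ)).charpoly.IsRoot z → 1 < ‖z‖) :
    ∃ r : ℕ → ℝ, Tendsto r atTop (𝓝 0) ∧ (∀ n, 0 ≤ r n) ∧
      ∀ n, ∀ x : Fin d → ℝ, ‖((R.map (Int.castRingHom ℝ))⁻¹ ^ n) *ᵥ x‖ ≤ r n * ‖x‖ := by
  have hdet := det_ne_zero R hR
  set A : Matrix (Fin d) (Fin d) ℝ := (R.map (Int.castRingHom ℝ)) with hA
  set C : Matrix (Fin d) (Fin d) ℂ := (R.map (Int.castRingHom ℂ)) with hC
  have hAC : A.map (algebraMap ℝ ℂ) = C := by
    ext i j
    simp [hA, hC]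
  have hu : IsUnit A := (Matrix.isUnit_iff_isUnit_det A).2 (isUnit_iff_ne_zero.2 hdet)
  have hinv : A⁻¹.map (algebraMap ℝ ℂ) * C = 1 := by
    rw [← hAC, ← Matrix.map_mul, Matrix.nonsing_inv_mul A (isUnit_iff_ne_zero.2 hdet)]
    simp
  have hinv2 : C * A⁻¹.map (algebraMap ℝ ℂ) = 1 := by
    rw [← hAC, ← Matrix.map_mul, Matrix.mul_nonsing_inv A (isUnit_iff_ne_zero.2 hdet)]
    simp
  let U : (Matrix (Fin d) (Fin d) ℂ)ˣ := ⟨A⁻¹.map (algebraMap ℝ ℂ), C, hinv, hinv2⟩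
  have hsr : spectralRadius ℂ (A⁻¹.map (algebraMap ℝ ℂ)) < 1 := by
    have hspec : ∀ z ∈ spectrum ℂ (A⁻¹.map (algebraMap ℝ ℂ)), ‖z‖₊ < 1 := by
      intro z hz
      have hz0 : z ≠ 0 := by
        rintro rfl
        exact (spectrum.zero_mem_iff ℂ).1 hz U.isUnit
      have h2 : z⁻¹ ∈ spectrum ℂ C := by
        have := (spectrum.inv_mem_iff (R := ℂ) (r := Units.mk0 z hz0) (a := U)).1 (by simpa [U] using hz)
        simpa [U] using this
      have h3 := hR z⁻¹ (Matrix.mem_spectrum_iff_isRoot_charpoly.1 h2)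
      rw [norm_inv] at h3
      have h4 : ‖z‖ < 1 := by
        have hzpos : 0 < ‖z‖ := norm_pos_iff.2 hz0
        by_contra hcon
        have := inv_le_one_of_one_le₀ (not_lt.1 hcon)
        linarith
      exact_mod_cast h4
    rcases isEmpty_or_nonempty (Fin d) with hd | hd
    · have : Subsingleton (Matrix (Fin d) (Fin d) ℂ) := inferInstance
      rw [spectrum.SpectralRadius.of_subsingleton]
      exact zero_lt_one
    · have : Nontrivial (Matrix (Fin d) (Fin d) ℂ) := inferInstance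
      exact_mod_cast spectrum.spectralRadius_lt_of_forall_lt_of_nonempty (𝕜 := ℂ)
        (a := A⁻¹.map (algebraMap ℝ ℂ)) (r := 1) (spectrum.nonempty _) hspec
  refine ⟨fun n => ‖(A⁻¹) ^ n‖, ?_, fun n => norm_nonneg _, fun n x =>
    Matrix.linfty_opNorm_mulVec _ _⟩
  have hnorm : ∀ n, ‖(A⁻¹) ^ n‖ = ‖(A⁻¹.map (algebraMap ℝ ℂ)) ^ n‖ := by
    intro n
    have : (A⁻¹.map (algebraMap ℝ ℂ)) ^ n = ((A⁻¹) ^ n).map (algebraMap ℝ ℂ) := by
      rw [Matrix.map_pow]
    rw [this, Matrix.linfty_opNorm_def, Matrix.linfty_opNorm_def]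
    congr 1
    simp
  simp_rw [hnorm]
  exact pow_tendsto_zero _ hsr

end Q50.SO
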