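import Mathlib
import Pool.Agent.Q50.SO.Cocycle
import Pool.Agent.Q50.SO.Expand

/-!
# Spectral self-affine measures have no overlap
-/

set_option autoImplicit false

namespace Q50.SO

open Matrix MeasureTheory Filter Topology
open scoped ENNReal ComplexConjugate

variable {d : ℕ}

section
variable {R : Matrix (Fin d) (Fin d) ℤ} {B : Finset (Fin d → ℤ)}
    {μ : Measure (Fin d → ℝ)} {T : Set (Fin d → ℝ)} {r : ℕ → ℝ}

/-- The integer translations `k` such that `T + k` meets `T`. -/
def Kset (T : Set (Fin d → ℝ)) : Set (Fin d → ℤ) := {k | ∃ x ∈ T, ∃ y ∈ T, x = y + cst k}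

theorem Kset_finite (hT : IsCompact T) : (Kset T).Finite := by
  obtain ⟨D, hD⟩ := hT.isBounded.exists_norm_le
  refine (Set.finite_Icc (fun _ : Fin d => (⌊-(2 * D)⌋ : ℤ)) (fun _ => ⌈2 * D⌉)).subset ?_
  rintro k ⟨x, hx, y, hy, hxy⟩
  have h1 : ∀ i, |(k i : ℝ)| ≤ 2 * D := by
    intro i
    have h2 : (k i : ℝ) = (x - y) i := by
      rw [hxy]; simp [cst]
    rw [h2, ← Real.norm_eq_abs]
    calc ‖(x - y) i‖ ≤ ‖x - y‖ := norm_le_pi_norm _ _
      _ ≤ ‖x‖ + ‖y‖ := norm_sub_le _ _
      _ ≤ D + D := add_le_add (hD x hx) (hD y hy)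
      _ = 2 * D := by ring
  constructor
  · intro i
    have := (abs_le.1 (h1 i)).1
    exact_mod_cast (Int.floor_le _).trans this
  · intro i
    have := (abs_le.1 (h1 i)).2
    exact_mod_cast this.trans (Int.le_ceil _)

namespace Sys
variable (S : Sys R B μ T r)
include S

/-- If all level sums are distinct, the translates of the cells cannot cover `T` with a cell
outside. -/
theorem no_cover (hinj : ∀ n, ∀ v ∈ W B n, ∀ w ∈ W B n, sv R v = sv R w → v = w)
    (hQ : ∃ n, ∃ v ∈ W B n, ∀ x ∈ T, ∃ u ∈ W B n, u ≠ v ∧ ∃ y ∈ T,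
      x = y + cst (sv R u - sv R v)) : False := by
  classical
  obtain ⟨n', v', hv', hQ⟩ := hQ
  have hP : ∀ m : ℕ, ∃ n, ∃ v ∈ W B n, ∀ x ∈ T, ∃ A : Finset (List (Fin d → ℤ)),
      A ⊆ W B n ∧ A.card = m ∧ ∀ u ∈ A, ∃ y ∈ T, x = y + cst (sv R u - sv R v) := by
    intro m
    induction m with
    | zero => exact ⟨0, [], nil_mem, fun x _ => ⟨∅, by simp, rfl, by simp⟩⟩
    | succ m ih =>
      obtain ⟨n, v, hv, hP⟩ := ih
      refine ⟨n' + n, v' ++ v, append_mem hv' hv, fun x hx => ?_⟩
      obtain ⟨A, hA, hAc, hAx⟩ := hP x hx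
      obtain ⟨u', hu', hne, t, ht, hxt⟩ := hQ (tau R v x) (tau_maps S.det S.att hv hx)
      obtain ⟨w, hw, t', ht', rfl⟩ := exists_tau S.det S.att n ht
      refine ⟨insert (u' ++ w) (A.image (fun u => v' ++ u)), ?_, ?_, ?_⟩
      · intro z hz
        rcases Finset.mem_insert.1 hz with rfl | hz
        · exact append_mem hu' hw
        · obtain ⟨u, hu, rfl⟩ := Finset.mem_image.1 hz
          exact append_mem hv' (hA hu)
      · rw [Finset.card_insert_of_notMem, Finset.card_image_of_injective, hAc]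
        · intro a b hab
          exact List.append_cancel_left hab
        · intro hmem
          obtain ⟨u, hu, hu2⟩ := Finset.mem_image.1 hmem
          have hlen : v'.length = u'.length := by
            rw [length_of_mem hv', length_of_mem hu']
          exact hne (List.append_inj_left hu2 hlen).symm
      · intro z hz
        rcases Finset.mem_insert.1 hz with rfl | hz
        · refine ⟨t', ht', ?_⟩
          have h1 : (RR R) ^ n *ᵥ (tau R v x) = x + cst (sv R v) := by
            rw [tau, length_of_mem hv, RL_vec S.det]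
          have h2 : (RR R) ^ n *ᵥ (tau R w t') = t' + cst (sv R w) := by
            rw [tau, length_of_mem hw, RL_vec S.det]
          have h3 := congrArg (fun z => (RR R) ^ n *ᵥ z) hxt
          simp only [Matrix.mulVec_add, h1, h2] at h3
          rw [sv_append, sv_append, length_of_mem hv, length_of_mem hw]
          have h4 : cst (sv R w + R ^ n *ᵥ sv R u' - (sv R v + R ^ n *ᵥ sv R v')) =
              cst (sv R w) - cst (sv R v) + (RR R) ^ n *ᵥ cst (sv R u' - sv R v') := by
            rw [cst_sub, cst_add, cst_add, cst_mulVec, cst_mulVec, map_pow', cst_sub,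
              Matrix.mulVec_sub]
            abel
          rw [h4]
          have h5 : x = (t' + cst (sv R w) + (RR R) ^ n *ᵥ cst (sv R u' - sv R v')) -
              cst (sv R v) := by
            rw [← h3]; abel
          rw [h5]; abel
        · obtain ⟨u, hu, rfl⟩ := Finset.mem_image.1 hz
          obtain ⟨y, hy, hxy⟩ := hAx u hu
          refine ⟨y, hy, ?_⟩
          rw [hxy, sv_append, sv_append, length_of_mem hv, length_of_mem (hA hu)]
          congr 2
          abel
  obtain ⟨t, ht⟩ := S.ne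
  have hfin := Kset_finite S.cpt
  obtain ⟨n, v, hv, hP⟩ := hP (hfin.toFinset.card + 1)
  obtain ⟨A, hA, hAc, hAx⟩ := hP t ht
  have h1 : A.card ≤ hfin.toFinset.card := by
    refine Finset.card_le_card_of_injOn (fun u => sv R u - sv R v) ?_ ?_
    · intro u hu
      obtain ⟨y, hy, hty⟩ := hAx u hu
      simp only [Set.Finite.coe_toFinset]
      exact ⟨t, ht, y, hy, hty⟩
    · intro u hu w hw huw
      simp only [sub_left_inj] at huw
      exact hinj n u (hA hu) w (hA hw) huw
  omega

theorem cover_of_overlap {c c' : Fin d → ℤ} (hc : c ∈ B) (hc' : c' ∈ B) (hne : c ≠ c')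
    (h : μ (tau R [c] '' T ∩ tau R [c'] '' T) ≠ 0) :
    ∃ n, ∃ v ∈ W B n, ∀ x ∈ T, ∃ u ∈ W B n, u ≠ v ∧ ∃ y ∈ T,
      x = y + cst (sv R u - sv R v) := by
  classical
  have := S.prob
  have hfin := Kset_finite S.cpt
  set F : Finset (Fin d → ℤ) → Set (Fin d → ℝ) := fun K => ⋃ k ∈ K, (fun y => y + cst k) '' T
    with hF
  have hFc : ∀ K, IsClosed (F K) := fun K =>
    K.finite_toSet.isClosed_biUnion fun k _ =>
      (S.cpt.image (continuous_id.add continuous_const)).isClosed
  -- a gap below one for the measures of the unions of translates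
  set q : ℝ≥0∞ := (hfin.toFinset.powerset.filter (fun K => μ (F K) < 1)).sup (fun K => μ (F K))
    with hq
  have hq1 : q < 1 := by
    rw [hq, Finset.sup_lt_iff zero_lt_one]
    intro K hK
    exact (Finset.mem_filter.1 hK).2
  have hqle : ∀ K ⊆ hfin.toFinset, μ (F K) < 1 → μ (F K) ≤ q := fun K hK h =>
    Finset.le_sup (f := fun K => μ (F K)) (Finset.mem_filter.2 ⟨Finset.mem_powerset.2 hK, h⟩)
  have hq1' : q.toReal < 1 := by
    have := (ENNReal.toReal_lt_toReal hq1.ne_top ENNReal.one_ne_top).2 hq1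
    simpa using this
  set A := tau R [c] '' T ∩ tau R [c'] '' T with hA
  have hAm : MeasurableSet A :=
    ((S.cpt.image (continuous_tau R [c])).isClosed.measurableSet).inter
      (S.cpt.image (continuous_tau R [c'])).isClosed.measurableSet
  obtain ⟨n, hn, v, hv, hvq⟩ := S.exists_dense_cell hAm h hq1' 1
  refine ⟨n, v, hv, ?_⟩
  -- the first letter of `v` differs from `c` or from `c'`
  obtain ⟨k, rfl⟩ : ∃ k, n = k + 1 := ⟨n - 1, by omega⟩
  obtain ⟨a, v0, hav, -⟩ : ∃ a v0, v = a :: v0 ∧ True := by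
    cases v with
    | nil => have := length_of_mem hv; simp at this
    | cons a v0 => exact ⟨a, v0, rfl, trivial⟩
  obtain ⟨c'', hc'', hne'', hsub⟩ : ∃ c'' ∈ B, c'' ≠ a ∧ A ⊆ tau R [c''] '' T := by
    by_cases hca : c = a
    · exact ⟨c', hc', fun h => hne (hca.trans h.symm), Set.inter_subset_right⟩
    · exact ⟨c, hc, hca, Set.inter_subset_left⟩
  set K : Finset (Fin d → ℤ) := hfin.toFinset.filter
    (fun k' => ∃ u ∈ W B k, k' = sv R (c'' :: u) - sv R v) with hK
  have hcell : tau R v ⁻¹' A ∩ T ⊆ F K := by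
    rintro x ⟨hxA, hxT⟩
    obtain ⟨t, ht, htx⟩ := hsub hxA
    obtain ⟨u, hu, t', ht', rfl⟩ := exists_tau S.det S.att k ht
    have h1 : tau R (c'' :: u) t' = tau R v x := by
      rw [← htx, ← tau_append S.det]; rfl
    have hu1 : (c'' :: u) ∈ W B (k + 1) := by
      have := append_mem (single_mem hc'') hu
      rwa [add_comm] at this
    have h2 : x = t' + cst (sv R (c'' :: u) - sv R v) := by
      have h3 : (RR R) ^ (k + 1) *ᵥ (tau R v x) = x + cst (sv R v) := by
        rw [tau, length_of_mem hv, RL_vec S.det]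
      have h4 : (RR R) ^ (k + 1) *ᵥ (tau R (c'' :: u) t') = t' + cst (sv R (c'' :: u)) := by
        rw [tau, length_of_mem hu1, RL_vec S.det]
      rw [h1, h3] at h4
      rw [cst_sub, ← add_sub_assoc, ← h4]
      abel
    simp only [hF, Set.mem_iUnion]
    refine ⟨sv R (c'' :: u) - sv R v, ?_, t', ht', h2.symm⟩
    rw [hK, Finset.mem_filter]
    exact ⟨by simpa using ⟨x, hxT, t', ht', h2⟩, u, hu, rfl⟩
  have hμF : μ (F K) = 1 := by
    by_contra hne1
    have h1 : μ (F K) < 1 := lt_of_le_of_ne prob_le_one hne1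
    have h2 := hqle K (Finset.filter_subset _ _) h1
    have h3 : μ (tau R v ⁻¹' A) ≤ μ (F K) := by
      calc μ (tau R v ⁻¹' A) ≤ μ (F K ∪ Tᶜ) := by
            refine measure_mono fun x hx => ?_
            by_cases hxT : x ∈ T
            · exact Or.inl (hcell ⟨hx, hxT⟩)
            · exact Or.inr hxT
        _ ≤ μ (F K) + μ Tᶜ := measure_union_le _ _
        _ = μ (F K) := by rw [S.compl_T, add_zero]
    have h4 := ENNReal.toReal_mono hq1.ne_top (h3.trans h2)
    exact absurd hvq (not_lt.2 h4)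
  have hTF := S.subset_of_closed (hFc K) hμF
  intro x hx
  have h1 := hTF hx
  simp only [hF, Set.mem_iUnion] at h1
  obtain ⟨k', hk', y, hy, hyx⟩ := h1
  rw [hK, Finset.mem_filter] at hk'
  obtain ⟨-, u, hu, hk2⟩ := hk'
  refine ⟨c'' :: u, ?_, ?_, y, hy, ?_⟩
  · have := append_mem (single_mem hc'') hu
    rwa [add_comm] at this
  · rw [hav]
    intro h
    exact hne'' (List.cons.inj h).1
  · rw [← hk2]; exact hyx.symm

theorem no_overlap (Λ : Set (Fin d → ℝ)) (e : Λ → Lp ℂ 2 μ)
    (he : ∀ l : Λ, (e l : (Fin d → ℝ) → ℂ) =ᵐ[μ] ee (l : Fin d → ℝ))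
    (ho : Orthonormal ℂ e)
    (hd : (Submodule.span ℂ (Set.range e)).topologicalClosure = ⊤)
    {c c' : Fin d → ℤ} (hc : c ∈ B) (hc' : c' ∈ B) (hne : c ≠ c') :
    μ (tau R [c] '' T ∩ tau R [c'] '' T) = 0 := by
  by_contra h
  exact S.no_cover (fun n v hv w hw hvw => S.sv_injOn Λ e he ho hd hv hw hvw)
    (S.cover_of_overlap hc hc' hne h)

end Sys
end

end Q50.SO
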